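import Mathlib

/-!
# Everywhere divergent trigonometric series with coefficients in every `l^p`, `p > 2`

For `4^K ≤ n < 4^(K+1)` the `n`-th term of the series is
`(K+1) / 2^K * cos (n x + π n² / (2 * 4^K))`. Given `x` there is, in every block, a stationary point
`n₀` of the quadratic phase. Near `n₀` the phase is almost constant, and near `n₀ + 2^K` it is almost
constant and has moved by `π/2`. On one of these two windows of length `2^K / 8` the terms have the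
same sign and are at least `(K+1) / (4 * 2^K)` in absolute value, so the partial sums oscillate by at
least `(K+1) / 32` in the block.
-/

set_option autoImplicit false

open Filter Topology

namespace Pool.Agent.Results.MP_85199e_an.EverywhereDivergent

/-- size of the coefficients -/
noncomputable def rad (n : ℕ) : ℝ := ((Nat.log 4 n : ℝ) + 1) / 2 ^ (Nat.log 4 n)

/-- phase of the coefficients -/
noncomputable def ph (n : ℕ) : ℝ := Real.pi * (n : ℝ) ^ 2 / (2 * 4 ^ (Nat.log 4 n))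

/-- cosine coefficients -/
noncomputable def aa (n : ℕ) : ℝ := rad n * Real.cos (ph n)

/-- sine coefficients -/
noncomputable def bb (n : ℕ) : ℝ := -(rad n * Real.sin (ph n))

lemma rad_nonneg (n : ℕ) : 0 ≤ rad n := by unfold rad; positivity

lemma term_eq (n : ℕ) (x : ℝ) :
    aa n * Real.cos (n * x) + bb n * Real.sin (n * x) = rad n * Real.cos (n * x + ph n) := by
  rw [Real.cos_add]; unfold aa bb; ring

lemma log_eq {K n : ℕ} (h1 : 4 ^ K ≤ n) (h2 : n < 4 ^ (K + 1)) : Nat.log 4 n = K :=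
  (Nat.log_eq_iff (Or.inr ⟨by norm_num, by
    have : 0 < 4 ^ K := by positivity
    omega⟩)).2 ⟨h1, h2⟩

/-- `|cos (t + e) - cos t| ≤ |e|` -/
lemma cos_close (t e : ℝ) : |Real.cos (t + e) - Real.cos t| ≤ |e| := by
  have := Real.abs_cos_sub_cos_le (t + e) t
  simpa using this

/-- The stationary point: for `4 ≤ K` and every `x` there are `n₀` and `θ` such that the phases at
`n₀ + m` are `θ + π m² / (2 * 4^K)` up to an error `2 π m / (2 * 4^K)`. -/
lemma stationary (K : ℕ) (x : ℝ) : ∃ (n₀ : ℕ) (θ : ℝ), 4 ^ K ≤ n₀ ∧ n₀ < 3 * 4 ^ K ∧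
    ∀ m : ℕ, n₀ + m < 4 ^ (K + 1) → ∃ e : ℝ, 0 ≤ e ∧ e ≤ Real.pi * m / 4 ^ K ∧
      Real.cos (((n₀ + m : ℕ) : ℝ) * x + ph (n₀ + m)) =
        Real.cos (θ + (Real.pi * (m : ℝ) ^ 2 / (2 * 4 ^ K) + e)) := by
  set L : ℤ := 2 * 4 ^ K with hL
  have hL0 : (0 : ℤ) < L := by positivity
  have hLr : ((L : ℤ) : ℝ) = 2 * 4 ^ K := by rw [hL]; push_cast; ring
  have hLr0 : (0 : ℝ) < (L : ℝ) := by rw [hLr]; positivity
  set y : ℝ := x * L / (2 * Real.pi) with hy
  have hpi := Real.pi_pos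
  set s : ℤ := (-⌊y⌋ - 4 ^ K) % L with hs
  have hs0 : 0 ≤ s := Int.emod_nonneg _ hL0.ne'
  have hs1 : s < L := Int.emod_lt_of_pos _ hL0
  obtain ⟨s', hs'⟩ := Int.eq_ofNat_of_zero_le hs0
  set q : ℤ := (-⌊y⌋ - 4 ^ K) / L with hq
  have hdiv : L * q + s = -⌊y⌋ - 4 ^ K := Int.mul_ediv_add_emod _ _
  refine ⟨4 ^ K + s', ((4 ^ K + s' : ℕ) : ℝ) * x + Real.pi * ((4 ^ K + s' : ℕ) : ℝ) ^ 2 / (2 * 4 ^ K),
    by omega, ?_, ?_⟩
  · have : (s' : ℤ) < 2 * 4 ^ K := by rw [← hs', ← hL]; exact hs1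
    have h2 : s' < 2 * 4 ^ K := by exact_mod_cast this
    omega
  · intro m hm
    set n₀ : ℕ := 4 ^ K + s' with hn0
    have hlog : Nat.log 4 (n₀ + m) = K := log_eq (by omega) hm
    refine ⟨Int.fract y * (2 * Real.pi / L) * m, by
      have := Int.fract_nonneg y
      positivity, ?_, ?_⟩
    · have h1 := (Int.fract_lt_one y).le
      have h0 := Int.fract_nonneg y
      calc Int.fract y * (2 * Real.pi / L) * m ≤ 1 * (2 * Real.pi / L) * m := by gcongr
        _ = Real.pi * m / 4 ^ K := by rw [hLr]; field_simp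
    · unfold ph
      rw [hlog]
      -- x + 2 π n₀ / L = 2 π j + fract y * 2 π / L
      have hx : x = y * (2 * Real.pi) / L := by rw [hy]; field_simp
      have hn0r : (n₀ : ℝ) = -(⌊y⌋ : ℝ) - L * q := by
        have h3 : (n₀ : ℤ) = -⌊y⌋ - L * q := by
          rw [hn0]; push_cast; rw [← hs']; linarith
        have h4 : ((n₀ : ℤ) : ℝ) = ((-⌊y⌋ - L * q : ℤ) : ℝ) := by rw [h3]
        push_cast at h4
        exact h4
      have key : ((n₀ + m : ℕ) : ℝ) * x + Real.pi * ((n₀ + m : ℕ) : ℝ) ^ 2 / (2 * 4 ^ K) =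
          ((n₀ : ℝ) * x + Real.pi * (n₀ : ℝ) ^ 2 / (2 * 4 ^ K) +
            (Real.pi * (m : ℝ) ^ 2 / (2 * 4 ^ K) + Int.fract y * (2 * Real.pi / L) * m)) +
            ((-(q * m) : ℤ) : ℝ) * (2 * Real.pi) := by
        have h5 : (m : ℝ) * x + 2 * Real.pi * n₀ * m / L =
            Int.fract y * (2 * Real.pi / L) * m + ((-(q * m) : ℤ) : ℝ) * (2 * Real.pi) := by
          have h6 : Int.fract y = y - ⌊y⌋ := rfl
          rw [h6, hn0r]
          push_cast
          nth_rewrite 1 [hx]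
          field_simp
          ring
        push_cast at h5 ⊢
        rw [← hLr]
        have h7 : Real.pi * ((n₀ : ℝ) + m) ^ 2 / (L : ℝ) =
            Real.pi * (n₀ : ℝ) ^ 2 / L + Real.pi * (m : ℝ) ^ 2 / L + 2 * Real.pi * n₀ * m / L := by
          field_simp; ring
        rw [h7]
        linarith
      rw [key, Real.cos_add_int_mul_two_pi]

/-- Lower bound for a window. -/
lemma window_bound (K n₁ W : ℕ) (x v : ℝ) (h1 : 4 ^ K ≤ n₁) (h2 : n₁ + W ≤ 4 ^ (K + 1))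
    (hv : 7 / 10 ≤ |v|)
    (hc : ∀ m, m < W → |Real.cos (((n₁ + m : ℕ) : ℝ) * x + ph (n₁ + m)) - v| ≤ 9 / 20) :
    ((K : ℝ) + 1) / 2 ^ K * (W / 4) ≤
      |∑ m ∈ Finset.range W, rad (n₁ + m) * Real.cos (((n₁ + m : ℕ) : ℝ) * x + ph (n₁ + m))| := by
  have hrad : ∀ m ∈ Finset.range W, rad (n₁ + m) = ((K : ℝ) + 1) / 2 ^ K := by
    intro m hm
    rw [Finset.mem_range] at hm
    unfold rad
    rw [log_eq (K := K) (by omega) (by omega)]
  have hr0 : 0 ≤ ((K : ℝ) + 1) / 2 ^ K := by positivity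
  rw [Finset.sum_congr rfl (fun m hm => by rw [hrad m hm]), ← Finset.mul_sum, abs_mul,
    abs_of_nonneg hr0]
  apply mul_le_mul_of_nonneg_left _ hr0
  rcases le_or_gt 0 v with h0 | h0
  · rw [abs_of_nonneg h0] at hv
    have : ∑ m ∈ Finset.range W, (1 / 4 : ℝ) ≤
        ∑ m ∈ Finset.range W, Real.cos (((n₁ + m : ℕ) : ℝ) * x + ph (n₁ + m)) := by
      apply Finset.sum_le_sum
      intro m hm
      have := hc m (Finset.mem_range.1 hm)
      rw [abs_le] at this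
      linarith [this.1]
    rw [Finset.sum_const, Finset.card_range, nsmul_eq_mul] at this
    calc (W : ℝ) / 4 = W * (1 / 4) := by ring
      _ ≤ _ := this
      _ ≤ _ := le_abs_self _
  · rw [abs_of_neg h0] at hv
    have : ∑ m ∈ Finset.range W, Real.cos (((n₁ + m : ℕ) : ℝ) * x + ph (n₁ + m)) ≤
        ∑ m ∈ Finset.range W, (-(1 / 4) : ℝ) := by
      apply Finset.sum_le_sum
      intro m hm
      have := hc m (Finset.mem_range.1 hm)
      rw [abs_le] at this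
      linarith [this.2]
    rw [Finset.sum_const, Finset.card_range, nsmul_eq_mul] at this
    calc (W : ℝ) / 4 ≤ -(∑ m ∈ Finset.range W, Real.cos (((n₁ + m : ℕ) : ℝ) * x + ph (n₁ + m))) := by
          linarith
      _ ≤ _ := neg_le_abs _

/-- The oscillation of the partial sums in the `K`-th block. -/
lemma oscillation (K : ℕ) (hK : 10 ≤ K) (x : ℝ) : ∃ n₁ W : ℕ, 1 ≤ n₁ ∧ K ≤ n₁ ∧
    ((K : ℝ) + 1) / 32 ≤
      |∑ m ∈ Finset.range W, rad (n₁ + m) * Real.cos (((n₁ + m : ℕ) : ℝ) * x + ph (n₁ + m))| := by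
  obtain ⟨n₀, θ, h1, h2, h3⟩ := stationary K x
  obtain ⟨j, rfl⟩ : ∃ j, K = j + 3 := ⟨K - 3, by omega⟩
  set M : ℕ := 2 ^ (j + 3) with hM
  set W : ℕ := 2 ^ j with hW
  have hMW : M = 8 * W := by rw [hM, hW, pow_add]; ring
  have hMsq : 4 ^ (j + 3) = M ^ 2 := by
    rw [hM, ← pow_mul, mul_comm (j + 3) 2, pow_mul]; norm_num
  have hW128 : 128 ≤ W := by
    rw [hW]
    calc 128 = 2 ^ 7 := by norm_num
      _ ≤ 2 ^ j := Nat.pow_le_pow_right (by norm_num) (by omega)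
  have hM1 : 1024 ≤ M := by omega
  have hKM : j + 3 < M := Nat.lt_two_pow_self
  have h4 : 4 ^ (j + 3 + 1) = 4 * M ^ 2 := by rw [pow_succ, hMsq]; ring
  have hMM : M ≤ M ^ 2 := by nlinarith
  have h2M : 2 * M ≤ M ^ 2 := by nlinarith
  rw [hMsq] at h1 h2
  have hWr : (M : ℝ) = 8 * W := by exact_mod_cast hMW
  have hW0 : (0 : ℝ) < W := by
    have : 0 < W := by omega
    exact_mod_cast this
  have hM0 : (0 : ℝ) < M := by rw [hWr]; positivity
  have h4r : ((4 : ℝ) ^ (j + 3)) = (M : ℝ) ^ 2 := by exact_mod_cast hMsq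
  have hpi := Real.pi_pos
  have hpi2 := Real.pi_lt_d2
  have hMr : (1024 : ℝ) ≤ M := by exact_mod_cast hM1
  have hscale : ((j + 3 : ℕ) : ℝ) + 1 = (((j + 3 : ℕ) : ℝ) + 1) / 2 ^ (j + 3) * M := by
    rw [hM]; push_cast; field_simp
  have hfin : (((j + 3 : ℕ) : ℝ) + 1) / 32 = (((j + 3 : ℕ) : ℝ) + 1) / 2 ^ (j + 3) * (W / 4) := by
    have : (W : ℝ) / 4 = M / 32 := by rw [hWr]; ring
    rw [this, mul_div_assoc', ← hscale]
  -- error bound
  have herr : ∀ m : ℕ, m ≤ 2 * M → Real.pi * m / 4 ^ (j + 3) ≤ 1 / 128 := by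
    intro m hm
    have hmr : (m : ℝ) ≤ 2 * M := by exact_mod_cast hm
    rw [h4r, div_le_iff₀ (by positivity)]
    calc Real.pi * m ≤ 3.15 * (2 * M) := by gcongr
      _ ≤ 1 / 128 * (M : ℝ) ^ 2 := by nlinarith
  by_cases hcos : 7 / 10 ≤ |Real.cos θ|
  · refine ⟨n₀, W, by omega, by omega, ?_⟩
    rw [hfin]
    refine window_bound (j + 3) n₀ W x (Real.cos θ) (by omega) (by rw [h4]; omega) hcos ?_
    intro m hm
    obtain ⟨e, he0, he1, he2⟩ := h3 m (by rw [h4]; omega)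
    rw [he2]
    refine (cos_close _ _).trans ?_
    have hmr : (m : ℝ) ≤ W := by exact_mod_cast hm.le
    have h5 : Real.pi * (m : ℝ) ^ 2 / (2 * 4 ^ (j + 3)) ≤ 1 / 8 := by
      rw [h4r, hWr, div_le_iff₀ (by positivity)]
      have : (m : ℝ) ^ 2 ≤ (W : ℝ) ^ 2 := by gcongr
      calc Real.pi * (m : ℝ) ^ 2 ≤ 3.15 * (W : ℝ) ^ 2 := by gcongr
        _ ≤ 1 / 8 * (2 * (8 * (W : ℝ)) ^ 2) := by nlinarith [sq_nonneg (W : ℝ)]
    have h6 := herr m (by omega)
    rw [abs_of_nonneg (by positivity)]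
    linarith
  · refine ⟨n₀ + M, W, by omega, by omega, ?_⟩
    rw [hfin]
    have hsin : 7 / 10 ≤ |(-Real.sin θ)| := by
      rw [abs_neg]
      push Not at hcos
      have h7 : Real.cos θ ^ 2 < (7 / 10) ^ 2 := by
        rw [← sq_abs (Real.cos θ)]
        gcongr
      have h8 : (7 / 10 : ℝ) ^ 2 < |Real.sin θ| ^ 2 := by
        rw [sq_abs]
        nlinarith [Real.sin_sq_add_cos_sq θ]
      exact (lt_of_pow_lt_pow_left₀ 2 (abs_nonneg _) h8).le
    refine window_bound (j + 3) (n₀ + M) W x (-Real.sin θ) (by omega) (by rw [h4]; omega) hsin ?_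
    intro m hm
    obtain ⟨e, he0, he1, he2⟩ := h3 (M + m) (by rw [h4]; omega)
    have h9 : n₀ + M + m = n₀ + (M + m) := by ring
    rw [h9, he2]
    have hmr : (m : ℝ) ≤ W := by exact_mod_cast hm.le
    have h10 : Real.pi * ((M + m : ℕ) : ℝ) ^ 2 / (2 * 4 ^ (j + 3)) =
        Real.pi / 2 + Real.pi * (2 * M * m + (m : ℝ) ^ 2) / (2 * 4 ^ (j + 3)) := by
      rw [h4r]; push_cast; field_simp; ring
    have h11 : θ + (Real.pi * ((M + m : ℕ) : ℝ) ^ 2 / (2 * 4 ^ (j + 3)) + e) =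
        (θ + (Real.pi * (2 * M * m + (m : ℝ) ^ 2) / (2 * 4 ^ (j + 3)) + e)) + Real.pi / 2 := by
      rw [h10]; ring
    rw [h11, Real.cos_add_pi_div_two]
    have h12 : |Real.sin (θ + (Real.pi * (2 * M * m + (m : ℝ) ^ 2) / (2 * 4 ^ (j + 3)) + e)) -
        Real.sin θ| ≤ |Real.pi * (2 * M * m + (m : ℝ) ^ 2) / (2 * 4 ^ (j + 3)) + e| := by
      have := Real.abs_sin_sub_sin_le
        (θ + (Real.pi * (2 * M * m + (m : ℝ) ^ 2) / (2 * 4 ^ (j + 3)) + e)) θ
      simpa using this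
    have h13 : Real.pi * (2 * M * m + (m : ℝ) ^ 2) / (2 * 4 ^ (j + 3)) ≤ 0.42 := by
      rw [h4r, hWr, div_le_iff₀ (by positivity)]
      have : 2 * (8 * (W : ℝ)) * m + (m : ℝ) ^ 2 ≤ 17 * (W : ℝ) ^ 2 := by
        nlinarith [Nat.cast_nonneg (α := ℝ) m]
      calc Real.pi * (2 * (8 * (W : ℝ)) * m + (m : ℝ) ^ 2) ≤ 3.15 * (17 * (W : ℝ) ^ 2) := by gcongr
        _ ≤ 0.42 * (2 * (8 * (W : ℝ)) ^ 2) := by nlinarith [sq_nonneg (W : ℝ)]
    have h14 := herr (M + m) (by omega)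
    have h15 : |-Real.sin (θ + (Real.pi * (2 * M * m + (m : ℝ) ^ 2) / (2 * 4 ^ (j + 3)) + e)) -
        -Real.sin θ| = |Real.sin (θ + (Real.pi * (2 * M * m + (m : ℝ) ^ 2) / (2 * 4 ^ (j + 3)) + e)) -
        Real.sin θ| := by
      rw [← abs_neg]; congr 1; ring
    rw [h15]
    refine h12.trans ?_
    rw [abs_of_nonneg (by positivity)]
    linarith

/-- partial sums -/
noncomputable def SS (x : ℝ) (N : ℕ) : ℝ :=
  ∑ n ∈ Finset.Icc 1 N, (aa n * Real.cos (n * x) + bb n * Real.sin (n * x))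

lemma SS_diff (x : ℝ) (n₁ W : ℕ) (h : 1 ≤ n₁) :
    SS x (n₁ + W - 1) - SS x (n₁ - 1) =
      ∑ m ∈ Finset.range W, rad (n₁ + m) * Real.cos (((n₁ + m : ℕ) : ℝ) * x + ph (n₁ + m)) := by
  obtain ⟨k, rfl⟩ : ∃ k, n₁ = k + 1 := ⟨n₁ - 1, by omega⟩
  have h1 : k + 1 + W - 1 = k + W := by omega
  have h2 : k + 1 - 1 = k := by omega
  rw [h1, h2]
  unfold SS
  induction W with
  | zero => simp
  | succ W ih =>
    rw [Finset.sum_range_succ, ← ih (by omega)]
    have h3 : k + (W + 1) = (k + W) + 1 := by ring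
    have h4 : k + 1 + W = (k + W) + 1 := by ring
    rw [h3, h4, Finset.sum_Icc_succ_top (by omega), term_eq]
    ring

lemma exists_large (x : ℝ) (C : ℝ) (N₀ : ℕ) : ∃ p q : ℕ, N₀ ≤ p ∧ N₀ ≤ q ∧
    C ≤ |SS x p - SS x q| := by
  obtain ⟨K, hK⟩ := exists_nat_ge (32 * C)
  set K' := max K (max 10 (N₀ + 1)) with hK'
  have h10 : 10 ≤ K' := by omega
  obtain ⟨n₁, W, h1, h2, h3⟩ := oscillation K' h10 x
  refine ⟨n₁ + W - 1, n₁ - 1, by omega, by omega, ?_⟩
  rw [SS_diff x n₁ W h1]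
  refine le_trans ?_ h3
  have : (K : ℝ) ≤ K' := by exact_mod_cast le_max_left _ _
  linarith

lemma unbounded (x : ℝ) (C : ℝ) : ∃ N : ℕ, C < |SS x N| := by
  by_contra hcon
  push Not at hcon
  obtain ⟨p, q, -, -, h⟩ := exists_large x (2 * C + 1) 0
  have h1 := hcon p
  have h2 := hcon q
  have h3 := abs_sub (SS x p) (SS x q)
  linarith

lemma not_tendsto (x : ℝ) : ¬ ∃ l : ℝ, Tendsto (SS x) atTop (𝓝 l) := by
  rintro ⟨l, hl⟩
  have hb := hl.abs.bddAbove_range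
  obtain ⟨C, hC⟩ := hb
  obtain ⟨N, hN⟩ := unbounded x C
  exact absurd (hC (Set.mem_range_self N)) (not_le.2 hN)

lemma rad_rpow_bound (p : ℝ) (hp : 2 < p) : ∃ C : ℝ, ∀ n : ℕ, 1 ≤ n →
    rad n ^ p ≤ C * (n : ℝ) ^ (-(1 + (p - 2) / 4)) := by
  set η : ℝ := p - 2 with hη
  have hη0 : 0 < η := by linarith
  -- (K+1)^p ≤ C₀ * 2 ^ (K η / 2)
  have h1 : Tendsto (fun t : ℝ => t ^ p * Real.exp (-(Real.log 2 * (η / 2)) * t)) atTop (𝓝 0) :=
    tendsto_rpow_mul_exp_neg_mul_atTop_nhds_zero p _ (by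
      have := Real.log_pos (one_lt_two (α := ℝ))
      positivity)
  have h2 : Tendsto (fun K : ℕ => ((K : ℝ) + 1) ^ p *
      Real.exp (-(Real.log 2 * (η / 2)) * ((K : ℝ) + 1))) atTop (𝓝 0) :=
    h1.comp (tendsto_atTop_add_const_right _ _ tendsto_natCast_atTop_atTop)
  obtain ⟨C₀, hC₀⟩ := h2.bddAbove_range
  have hC₀' : ∀ K : ℕ, ((K : ℝ) + 1) ^ p ≤ C₀ * 2 ^ (η / 2 * ((K : ℝ) + 1)) := by
    intro K
    have := hC₀ (Set.mem_range_self K)
    have h3 : Real.exp (-(Real.log 2 * (η / 2)) * ((K : ℝ) + 1)) =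
        (2 ^ (η / 2 * ((K : ℝ) + 1)))⁻¹ := by
      rw [Real.rpow_def_of_pos (by norm_num), ← Real.exp_neg]
      congr 1; ring
    rw [h3, ← div_eq_mul_inv, div_le_iff₀ (by positivity)] at this
    exact this
  have hC0 : 0 ≤ C₀ := by
    have := hC₀' 0
    by_contra hneg
    push Not at hneg
    have h4 : (0 : ℝ) < 2 ^ (η / 2 * (((0 : ℕ) : ℝ) + 1)) := by positivity
    have h5 : (0 : ℝ) ≤ (((0 : ℕ) : ℝ) + 1) ^ p := by positivity
    have h6 := mul_neg_of_neg_of_pos hneg h4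
    exact absurd (h5.trans this) (not_le.2 h6)
  refine ⟨C₀ * 2 ^ (η / 2) * 4 ^ (1 + η / 4), ?_⟩
  intro n hn
  set K := Nat.log 4 n with hK
  have hn1 : n < 4 ^ (K + 1) := Nat.lt_pow_succ_log_self (by norm_num) n
  have hnr : (n : ℝ) ≤ 4 ^ ((K : ℝ) + 1) := by
    have : (n : ℝ) ≤ 4 ^ (K + 1) := by exact_mod_cast hn1.le
    rw [← Real.rpow_natCast] at this
    push_cast at this
    exact this
  have hn0 : (0 : ℝ) < n := by exact_mod_cast hn
  have hrad : rad n ^ p = ((K : ℝ) + 1) ^ p * (2 : ℝ) ^ (-(K * p)) := by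
    unfold rad
    rw [← hK, Real.div_rpow (by positivity) (by positivity), Real.rpow_neg (by norm_num),
      ← Real.rpow_natCast 2 K, ← Real.rpow_mul (by norm_num)]
    rfl
  rw [hrad]
  -- n^(-(1+η/4)) ≥ 4 ^ (-(K+1)(1+η/4))
  have h6 : (4 : ℝ) ^ (-(((K : ℝ) + 1) * (1 + η / 4))) ≤ (n : ℝ) ^ (-(1 + η / 4)) := by
    have e1 : (4 : ℝ) ^ (-(((K : ℝ) + 1) * (1 + η / 4))) = ((4 : ℝ) ^ ((K : ℝ) + 1)) ^ (-(1 + η / 4)) := by
      rw [← Real.rpow_mul (by norm_num)]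
      congr 1; ring
    rw [e1]
    exact Real.rpow_le_rpow_of_nonpos hn0 hnr (by linarith)
  calc ((K : ℝ) + 1) ^ p * (2 : ℝ) ^ (-(K * p)) ≤
        (C₀ * 2 ^ (η / 2 * ((K : ℝ) + 1))) * (2 : ℝ) ^ (-(K * p)) := by
        gcongr
        exact hC₀' K
    _ = C₀ * 2 ^ (η / 2) * 4 ^ (1 + η / 4) * (4 : ℝ) ^ (-(((K : ℝ) + 1) * (1 + η / 4))) := by
        have e2 : (4 : ℝ) = 2 ^ (2 : ℝ) := by norm_num
        rw [e2, ← Real.rpow_mul (by norm_num), ← Real.rpow_mul (by norm_num)]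
        rw [mul_assoc, mul_assoc, mul_assoc, ← Real.rpow_add (by norm_num),
          ← Real.rpow_add (by norm_num), ← Real.rpow_add (by norm_num)]
        congr 2
        rw [hη]; ring
    _ ≤ _ := by gcongr

lemma summable_rad (p : ℝ) (hp : 2 < p) : Summable (fun n : ℕ => rad n ^ p) := by
  obtain ⟨C, hC⟩ := rad_rpow_bound p hp
  have h1 : Summable (fun n : ℕ => C * (n : ℝ) ^ (-(1 + (p - 2) / 4))) :=
    (Real.summable_nat_rpow.2 (by linarith)).mul_left C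
  rw [← summable_nat_add_iff 1] at h1 ⊢
  refine Summable.of_nonneg_of_le (fun n => by
    have := rad_nonneg (n + 1)
    positivity) (fun n => ?_) h1
  exact hC (n + 1) (by omega)

/-- **There is a real trigonometric series which diverges at every point, with unbounded partial sums
at every point, and whose coefficients are in `l^p` for every `p > 2`.** -/
theorem result : ∃ a b : ℕ → ℝ,
    (∀ ε : ℝ, 0 < ε → Summable (fun n : ℕ => |a n| ^ (2 + ε) + |b n| ^ (2 + ε))) ∧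
    ∀ x : ℝ,
      (¬ ∃ l : ℝ, Tendsto (fun N : ℕ =>
        ∑ n ∈ Finset.Icc 1 N, (a n * Real.cos (n * x) + b n * Real.sin (n * x))) atTop (𝓝 l)) ∧
      ∀ C : ℝ, ∃ N : ℕ,
        C < |∑ n ∈ Finset.Icc 1 N, (a n * Real.cos (n * x) + b n * Real.sin (n * x))| := by
  refine ⟨aa, bb, ?_, fun x => ⟨not_tendsto x, unbounded x⟩⟩
  intro ε hε
  have h := summable_rad (2 + ε) (by linarith)
  refine Summable.of_nonneg_of_le (fun n => by positivity) (fun n => ?_) (h.mul_left 2)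
  have ha : |aa n| ≤ rad n := by
    unfold aa
    rw [abs_mul, abs_of_nonneg (rad_nonneg n)]
    exact mul_le_of_le_one_right (rad_nonneg n) (Real.abs_cos_le_one _)
  have hb : |bb n| ≤ rad n := by
    unfold bb
    rw [abs_neg, abs_mul, abs_of_nonneg (rad_nonneg n)]
    exact mul_le_of_le_one_right (rad_nonneg n) (Real.abs_sin_le_one _)
  have h1 : |aa n| ^ (2 + ε) ≤ rad n ^ (2 + ε) :=
    Real.rpow_le_rpow (abs_nonneg _) ha (by linarith)
  have h2 : |bb n| ^ (2 + ε) ≤ rad n ^ (2 + ε) :=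
    Real.rpow_le_rpow (abs_nonneg _) hb (by linarith)
  linarith

end Pool.Agent.Results.MP_85199e_an.EverywhereDivergent
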